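import Pool.Agent.Helper9.CC.Stm

/-!
Project CC, package DOM: fundamental domains for groups acting on simplicial cones.
-/

set_option autoImplicit false

namespace Pool.Agent.Helper98.CC

open Pool.Agent.Helper9.CC

theorem lat_sum {l : ℕ} {ι : Type} (t : Finset ι) (v : ι → NS l) (h : ∀ i, v i ∈ Lat l) :
    ∑ i ∈ t, v i ∈ Lat l := by
  classical
  induction t using Finset.induction_on with
  | empty => exact ⟨fun j => ⟨0, by simp⟩, ⟨0, by simp⟩⟩
  | insert a t ha ih =>
    rw [Finset.sum_insert ha]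
    obtain ⟨h1, m, h2⟩ := ih
    obtain ⟨h3, n, h4⟩ := h a
    refine ⟨fun j => ?_, ⟨n + m, ?_⟩⟩
    · obtain ⟨p, hp⟩ := h1 j
      obtain ⟨q, hq⟩ := h3 j
      exact ⟨q + p, by rw [Prod.fst_add, Pi.add_apply, hp, hq]; push_cast; ring⟩
    · rw [Prod.snd_add, h2, h4]; push_cast; ring

theorem mem_cone_sum {l : ℕ} {S : Set (NS l)} {ι : Type} (T : Finset ι) (c : ι → ℝ)
    (w : ι → NS l) (hc : ∀ t, 0 ≤ c t) (hw : ∀ t ∈ T, w t ∈ S) :
    ∑ t ∈ T, c t • w t ∈ cone S := by
  classical
  refine ⟨T.card, fun k => c (T.equivFin.symm k), fun k => w (T.equivFin.symm k),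
    fun k => hc _, fun k => hw _ (T.equivFin.symm k).2, ?_⟩
  rw [← Finset.sum_coe_sort T (fun t => c t • w t)]
  exact (Equiv.sum_comp T.equivFin.symm (fun t : T => c t • w t)).symm

theorem dom (hP : S_PERM) (hO : S_ORD) : S_DOM := by
  classical
  intro l v hv hL hprim Γ hΓL hΓC
  -- coordinates
  have hcard : Fintype.card (Fin (l + 1)) = Module.finrank ℝ (NS l) := by
    simp [NS]
  let bs : Module.Basis (Fin (l + 1)) ℝ (NS l) := basisOfLinearIndependentOfCardEqFinrank hv hcard
  have hbs : ∀ i, bs i = v i := fun i => by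
    simp [bs]
  let φ : NS l ≃ₗ[ℝ] (Fin (l + 1) → ℝ) := bs.equivFun
  have hφv : ∀ i, φ (v i) = Pi.single i 1 := fun i => by
    rw [← hbs i]
    ext j
    simp only [φ, Module.Basis.equivFun_apply, Module.Basis.repr_self]
    rw [Finsupp.single_apply, Pi.single_apply]
    simp [eq_comm]
  have hsum : ∀ x, x = ∑ i, φ x i • v i := fun x => by
    conv_lhs => rw [← bs.sum_equivFun x]
    simp only [hbs]
    rfl
  -- the cone
  have hA : ∀ x, x ∈ cone (Set.range v) ↔ ∀ i, 0 ≤ φ x i := by
    intro x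
    constructor
    · rintro ⟨n, c, w, hc, hw, rfl⟩ i
      rw [map_sum, Finset.sum_apply]
      refine Finset.sum_nonneg fun k _ => ?_
      obtain ⟨j, hj⟩ := hw k
      rw [map_smul, ← hj, hφv, Pi.smul_apply, smul_eq_mul]
      refine mul_nonneg (hc k) ?_
      rw [Pi.single_apply]
      split_ifs <;> norm_num
    · intro h
      exact ⟨l + 1, φ x, v, h, fun i => ⟨i, rfl⟩, hsum x⟩
  -- the permutations
  have hperm : ∀ g ∈ Γ, ∃ σ : Equiv.Perm (Fin (l + 1)), ∀ i, g (v i) = v (σ i) := fun g hg =>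
    hP v hv hL hprim g (hΓL g hg) (hΓC g hg)
  have hinj : Function.Injective v := hv.injective
  let Γ' : Subgroup (Equiv.Perm (Fin (l + 1))) :=
    { carrier := {σ | ∃ g ∈ Γ, ∀ i, g (v i) = v (σ i)}
      mul_mem' := by
        rintro σ τ ⟨g, hg, h1⟩ ⟨h, hh, h2⟩
        refine ⟨g * h, Γ.mul_mem hg hh, fun i => ?_⟩
        rw [LinearEquiv.mul_apply, h2, h1]
        rfl
      one_mem' := ⟨1, Γ.one_mem, fun i => rfl⟩
      inv_mem' := by
        rintro σ ⟨g, hg, h1⟩
        refine ⟨g⁻¹, Γ.inv_mem hg, fun i => ?_⟩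
        have h2 := h1 (σ⁻¹ i)
        have h3 : σ (σ⁻¹ i) = i := σ.apply_symm_apply i
        rw [h3] at h2
        rw [← h2, ← LinearEquiv.mul_apply, inv_mul_cancel]
        rfl }
  -- how elements act on the coordinates
  have hact : ∀ (g : NS l ≃ₗ[ℝ] NS l) (σ : Equiv.Perm (Fin (l + 1))), (∀ i, g (v i) = v (σ i)) →
      ∀ y i, φ (g y) (σ i) = φ y i := by
    intro g σ hσ y i
    conv_lhs => rw [hsum y]
    rw [map_sum, map_sum, Finset.sum_apply]
    rw [Finset.sum_eq_single i]
    · rw [map_smul, map_smul, hσ, hφv, Pi.smul_apply, Pi.single_eq_same, smul_eq_mul, mul_one]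
    · intro j _ hj
      rw [map_smul, map_smul, hσ, hφv, Pi.smul_apply, Pi.single_eq_of_ne, smul_zero]
      exact fun h => hj (σ.injective h).symm
    · intro h; exact absurd (Finset.mem_univ i) h
  obtain ⟨T, D, hD, hcov, hdis⟩ := hO Γ'
  let w : Finset (Fin (l + 1)) → NS l := fun t => ∑ i ∈ t, v i
  have hφw : ∀ t i, φ (w t) i = if i ∈ t then 1 else 0 := by
    intro t i
    simp only [w]
    rw [map_sum, Finset.sum_apply]
    simp only [hφv, Pi.single_apply]
    rw [Finset.sum_ite_eq]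
  let S : Finset (NS l) := T.image w
  -- D is a cone
  have hDadd : ∀ x y, x ∈ D → y ∈ D → x + y ∈ D := by
    intro x y hx hy
    rw [hD] at hx hy ⊢
    obtain ⟨c, hc, h1⟩ := hx
    obtain ⟨d, hd, h2⟩ := hy
    refine ⟨fun t => c t + d t, fun t => add_nonneg (hc t) (hd t), fun i => ?_⟩
    rw [Pi.add_apply, h1, h2, ← Finset.sum_add_distrib]
    refine Finset.sum_congr rfl fun t _ => ?_
    split_ifs <;> ring
  have hD0 : (0 : Fin (l + 1) → ℝ) ∈ D := by
    rw [hD]
    exact ⟨fun _ => 0, fun _ => le_rfl, fun i => by simp⟩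
  have hDw : ∀ t ∈ T, ∀ c : ℝ, 0 ≤ c → c • φ (w t) ∈ D := by
    intro t ht c hc
    rw [hD]
    refine ⟨fun s => if s = t then c else 0, fun s => by dsimp only; split_ifs <;> simp [hc], fun i => ?_⟩
    rw [Pi.smul_apply, hφw, Finset.sum_eq_single t]
    · by_cases hi : i ∈ t <;> simp [hi]
    · intro s _ hs
      simp [hs]
    · intro h; exact absurd ht h
  have hC : ∀ x, x ∈ cone (S : Set (NS l)) ↔ φ x ∈ D := by
    intro x
    constructor
    · rintro ⟨n, c, u, hc, hu, rfl⟩
      rw [map_sum]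
      refine Finset.sum_induction _ (fun z => z ∈ D) hDadd hD0 fun k _ => ?_
      have h1 := hu k
      simp only [S, Finset.coe_image, Set.mem_image, Finset.mem_coe] at h1
      obtain ⟨t, ht, h2⟩ := h1
      rw [map_smul, ← h2]
      exact hDw t ht _ (hc k)
    · intro h
      rw [hD] at h
      obtain ⟨c, hc, h1⟩ := h
      have h2 : x = ∑ t ∈ T, c t • w t := by
        apply φ.injective
        ext i
        rw [h1 i, map_sum, Finset.sum_apply]
        refine Finset.sum_congr rfl fun t _ => ?_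
        rw [map_smul, Pi.smul_apply, hφw]
        split_ifs <;> simp
      rw [h2]
      refine mem_cone_sum T c w hc fun t ht => ?_
      simp only [S, Finset.coe_image, Set.mem_image, Finset.mem_coe]
      exact ⟨t, ht, rfl⟩
  have hCA : cone (S : Set (NS l)) ⊆ cone (Set.range v) := by
    intro x hx
    rw [hC, hD] at hx
    rw [hA]
    obtain ⟨c, hc, h1⟩ := hx
    intro i
    rw [h1]
    refine Finset.sum_nonneg fun t _ => ?_
    split_ifs
    · exact hc t
    · exact le_rfl
  refine ⟨S, ?_, hCA, ?_, ?_, ?_⟩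
  · intro u hu
    simp only [S, Finset.mem_image] at hu
    obtain ⟨t, _, rfl⟩ := hu
    exact lat_sum t v hL
  · intro x hx
    rw [hA] at hx
    obtain ⟨σ, ⟨g, hg, hσ⟩, h1⟩ := hcov (φ x) hx
    refine ⟨g, hg, g⁻¹ x, ?_, ?_⟩
    · rw [hC]
      have h2 : φ (g⁻¹ x) = fun i => φ x (σ i) := by
        ext i
        rw [← hact g σ hσ (g⁻¹ x) i, ← LinearEquiv.mul_apply, mul_inv_cancel]
        rfl
      rw [h2]
      exact h1
    · rw [← LinearEquiv.mul_apply, mul_inv_cancel]
      rfl
  · intro g hg y hy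
    exact (hΓC g hg y).1 (hCA hy)
  · intro g hg hg1
    obtain ⟨σ, hσ⟩ := hperm g hg
    have hσ1 : σ ≠ 1 := by
      intro h
      apply hg1
      ext1 x
      apply φ.injective
      ext i
      have h2 := hact g σ hσ x i
      rw [h] at h2
      exact h2
    have hσΓ : σ ∈ Γ' := ⟨g, hg, hσ⟩
    have hint : ∀ x, x ∈ interior (cone (S : Set (NS l))) ↔ φ x ∈ interior D := by
      intro x
      have h1 : cone (S : Set (NS l)) = φ.toContinuousLinearEquiv.toHomeomorph ⁻¹' D := by
        ext y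
        rw [hC]
        rfl
      rw [h1, ← Homeomorph.preimage_interior]
      rfl
    have hint2 : ∀ x, x ∈ interior (g '' cone (S : Set (NS l))) →
        g⁻¹ x ∈ interior (cone (S : Set (NS l))) := by
      intro x hx
      have h1 : g '' cone (S : Set (NS l)) =
          g.toContinuousLinearEquiv.toHomeomorph '' cone (S : Set (NS l)) := rfl
      rw [h1, ← Homeomorph.image_interior] at hx
      obtain ⟨y, hy, rfl⟩ := hx
      have h2 : g⁻¹ (g.toContinuousLinearEquiv.toHomeomorph y) = y := by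
        change g⁻¹ (g y) = y
        rw [← LinearEquiv.mul_apply, inv_mul_cancel]
        rfl
      rw [h2]
      exact hy
    rw [Set.disjoint_left]
    intro x hx hx2
    have h1 := hint2 x hx2
    rw [hint] at hx h1
    refine hdis σ hσΓ hσ1 (φ x) hx ?_
    have h2 : φ (g⁻¹ x) = fun i => φ x (σ i) := by
      ext i
      rw [← hact g σ hσ (g⁻¹ x) i, ← LinearEquiv.mul_apply, mul_inv_cancel]
      rfl
    rw [← h2]
    exact h1

end Pool.Agent.Helper98.CC
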